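import Pool.Agent.W96.CL.Stm

set_option autoImplicit false

open Polynomial Filter Topology

namespace W96CL

theorem cl_divlim : S_divlim := by
  intro d f g F G hd hdvd hf hg hG
  choose h hh using hdvd
  -- a point where `G` does not vanish
  have hex : ∃ s : Finset ℂ, s.card = d + 1 ∧ ∀ x ∈ s, G.eval x ≠ 0 := by
    have hinf : (G.rootSet ℂ : Set ℂ)ᶜ.Infinite := (G.rootSet_finite ℂ).infinite_compl
    obtain ⟨s, hs1, hs2⟩ := hinf.exists_subset_card_eq (d + 1)
    refine ⟨s, hs2, fun x hx h0 => hs1 hx ?_⟩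
    rw [Polynomial.mem_rootSet]
    exact ⟨hG, by simpa using h0⟩
  obtain ⟨s, hs, hsG⟩ := hex
  have hsne : s.Nonempty := by rw [← Finset.card_pos, hs]; omega
  obtain ⟨x0, hx0⟩ := hsne
  have hgne : ∀ᶠ m in atTop, g m ≠ 0 := by
    have h1 : ∀ᶠ m in atTop, (g m).eval x0 ≠ 0 := (hg x0).eventually_ne (hsG x0 hx0)
    filter_upwards [h1] with m hm h0
    rw [h0] at hm
    simp at hm
  have hdeg : ∀ᶠ m in atTop, (h m).degree < s.card := by
    filter_upwards [hgne] with m hm
    by_cases h0 : h m = 0
    · rw [h0, degree_zero, hs]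
      exact WithBot.bot_lt_coe _
    · have h1 : (f m).natDegree = (g m).natDegree + (h m).natDegree := by
        rw [hh m, natDegree_mul hm h0]
      have h2 := hd m
      rw [Polynomial.degree_eq_natDegree h0, hs]
      exact_mod_cast (by omega : (h m).natDegree < d + 1)
  have hlim : ∀ i ∈ s, Tendsto (fun m => (h m).eval i) atTop (𝓝 (F.eval i / G.eval i)) := by
    intro i hi
    have h1 : Tendsto (fun m => (f m).eval i / (g m).eval i) atTop (𝓝 (F.eval i / G.eval i)) :=
      (hf i).div (hg i) (hsG i hi)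
    refine h1.congr' ?_
    filter_upwards [(hg i).eventually_ne (hsG i hi)] with m hm
    rw [hh m, eval_mul, mul_div_cancel_left₀ _ hm]
  set H : ℂ[X] := Lagrange.interpolate s id (fun x => F.eval x / G.eval x) with hHdef
  refine ⟨H, ?_⟩
  apply Polynomial.funext
  intro x
  rw [eval_mul]
  have hHx : Tendsto (fun m => (h m).eval x) atTop (𝓝 (H.eval x)) := by
    have h1 : Tendsto (fun m => ∑ i ∈ s, (h m).eval i * (Lagrange.basis s id i).eval x) atTop
        (𝓝 (∑ i ∈ s, (F.eval i / G.eval i) * (Lagrange.basis s id i).eval x)) :=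
      tendsto_finsetSum _ fun i hi => (hlim i hi).mul_const _
    have h2 : H.eval x = ∑ i ∈ s, (F.eval i / G.eval i) * (Lagrange.basis s id i).eval x := by
      rw [hHdef, Lagrange.interpolate_apply, eval_finsetSum]
      refine Finset.sum_congr rfl fun i _ => ?_
      rw [eval_mul, eval_C]
    rw [h2]
    refine h1.congr' ?_
    filter_upwards [hdeg] with m hm
    have h3 := Lagrange.eq_interpolate (s := s) (v := (id : ℂ → ℂ)) (f := h m)
      (fun a _ b _ hab => hab) hm
    conv_rhs => rw [h3]
    rw [Lagrange.interpolate_apply, eval_finsetSum]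
    refine Finset.sum_congr rfl fun i _ => ?_
    rw [eval_mul, eval_C]
    rfl
  have h4 : Tendsto (fun m => (f m).eval x) atTop (𝓝 (G.eval x * H.eval x)) := by
    refine ((hg x).mul hHx).congr fun m => ?_
    rw [hh m, eval_mul]
  exact tendsto_nhds_unique (hf x) h4

end W96CL
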