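import Pool.Agent.W96.CL.Stm

set_option autoImplicit false

open Polynomial Filter Topology

namespace W96CL

namespace SQRTC

/-- the top coefficients of the square root -/
noncomputable def qr (w : ℕ → ℝ) : ℕ → ℝ
  | 0 => 1
  | (k + 1) => (w (k + 1) - ∑ i : Fin k, qr w (i.1 + 1) * qr w (k - i.1)) / 2
  decreasing_by
    all_goals (have := i.2; omega)

theorem qr_zero (w : ℕ → ℝ) : qr w 0 = 1 := by rw [qr]

theorem qr_succ (w : ℕ → ℝ) (k : ℕ) :
    qr w (k + 1) = (w (k + 1) - ∑ i : Fin k, qr w (i.1 + 1) * qr w (k - i.1)) / 2 := by rw [qr]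

theorem qr_cont (Θ : Set ℝ) (w : ℝ → ℕ → ℝ) (hw : ∀ k, ContinuousOn (fun θ => w θ k) Θ) :
    ∀ k, ContinuousOn (fun θ => qr (w θ) k) Θ := by
  intro k
  induction k using Nat.strong_induction_on with
  | _ k ih =>
    rcases k with _ | k
    · simp only [qr_zero]
      exact continuousOn_const
    · have he : (fun θ => qr (w θ) (k + 1)) = fun θ =>
          (w θ (k + 1) - ∑ i : Fin k, qr (w θ) (i.1 + 1) * qr (w θ) (k - i.1)) / 2 :=
        funext fun θ => qr_succ _ _
      rw [he]
      refine ContinuousOn.div_const (ContinuousOn.sub (hw (k + 1)) ?_) _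
      refine continuousOn_finsetSum _ fun i _ => ?_
      have := i.2
      exact (ih _ (by omega)).mul (ih _ (by omega))

theorem qr_unique (N : ℕ) (w p : ℕ → ℝ) (h0 : p 0 = 1)
    (h : ∀ k, k ≤ N → w k = ∑ ij ∈ Finset.HasAntidiagonal.antidiagonal k, p ij.1 * p ij.2) :
    ∀ k, k ≤ N → p k = qr w k := by
  intro k
  induction k using Nat.strong_induction_on with
  | _ k ih =>
    intro hk
    rcases k with _ | k
    · rw [qr_zero, h0]
    · rw [qr_succ]
      have h1 := h (k + 1) hk
      rw [Finset.Nat.sum_antidiagonal_eq_sum_range_succ (fun a b => p a * p b) (k + 1),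
        Finset.sum_range_succ, Finset.sum_range_succ'] at h1
      have h2 : ∑ i : Fin k, qr w (i.1 + 1) * qr w (k - i.1) =
          ∑ i ∈ Finset.range k, p (i + 1) * p (k + 1 - (i + 1)) := by
        rw [← Fin.sum_univ_eq_sum_range (fun i => p (i + 1) * p (k + 1 - (i + 1))) k]
        refine Finset.sum_congr rfl fun i _ => ?_
        have := i.2
        rw [← ih (i.1 + 1) (by omega) (by omega), ← ih (k - i.1) (by omega) (by omega)]
        congr 2
        omega
      rw [h2]
      simp only [Nat.sub_self, Nat.sub_zero, h0, one_mul, mul_one] at h1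
      linarith

end SQRTC

open SQRTC in
theorem cl_sqrtcont : S_sqrtcont := by
  intro N Θ W hW hWc
  let w : ℝ → ℕ → ℝ := fun θ k => (reflect (2 * N) (W θ)).coeff k
  have hwc : ∀ k, ContinuousOn (fun θ => w θ k) Θ := by
    intro k
    simp only [w, coeff_reflect]
    exact hWc _
  let Q : ℝ → ℝ[X] := fun θ => ∑ k ∈ Finset.range (N + 1), C (qr (w θ) k) * X ^ (N - k)
  have hQc : ∀ θ j, (Q θ).coeff j = if j ≤ N then qr (w θ) (N - j) else 0 := by
    intro θ j
    simp only [Q, finsetSum_coeff, coeff_C_mul, coeff_X_pow]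
    by_cases hj : j ≤ N
    · rw [if_pos hj, Finset.sum_eq_single (N - j)]
      · rw [if_pos (by omega), mul_one]
      · intro b hb hbj
        rw [Finset.mem_range] at hb
        rw [if_neg (by omega), mul_zero]
      · intro hb
        rw [Finset.mem_range] at hb
        omega
    · rw [if_neg hj]
      refine Finset.sum_eq_zero fun b hb => ?_
      rw [if_neg (by omega), mul_zero]
  have hQdeg : ∀ θ, (Q θ).natDegree ≤ N := by
    intro θ
    rw [natDegree_le_iff_coeff_eq_zero]
    intro j hj
    rw [hQc, if_neg (by omega)]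
  have hQtop : ∀ θ, (Q θ).coeff N = 1 := by
    intro θ
    rw [hQc, if_pos le_rfl, Nat.sub_self, qr_zero]
  have hQN : ∀ θ, (Q θ).natDegree = N := by
    intro θ
    refine le_antisymm (hQdeg θ) (le_natDegree_of_ne_zero ?_)
    rw [hQtop]
    exact one_ne_zero
  refine ⟨Q, fun θ _ => ⟨?_, hQN θ⟩, ?_, ?_⟩
  · rw [Monic, leadingCoeff, hQN, hQtop]
  · intro k
    simp only [hQc]
    by_cases hk : k ≤ N
    · simp only [if_pos hk]
      exact qr_cont Θ w hwc _
    · simp only [if_neg hk]
      exact continuousOn_const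
  · intro θ hθ P hP hWP
    have hPN : P.natDegree = N := by
      have h1 := (hW θ hθ).2
      rw [hWP, hP.natDegree_pow] at h1
      omega
    have hkey := qr_unique N (w θ) (fun k => (reflect N P).coeff k) ?_ ?_
    · ext j
      rw [hQc]
      by_cases hj : j ≤ N
      · rw [if_pos hj, ← hkey (N - j) (by omega), coeff_reflect, revAt_le (by omega)]
        congr 1
        omega
      · rw [if_neg hj, coeff_eq_zero_of_natDegree_lt (by omega)]
    · change (reflect N P).coeff 0 = 1
      rw [coeff_reflect, revAt_le (by omega), Nat.sub_zero]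
      rw [← hPN]
      exact hP
    · intro k _
      change (reflect (2 * N) (W θ)).coeff k = _
      rw [hWP, two_mul, sq, reflect_mul P P hPN.le hPN.le, coeff_mul]

end W96CL
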