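import Pool.Agent.W96.CL.Stm

set_option autoImplicit false

open Polynomial Filter Topology

namespace W96CL

namespace VCONT

/-- continuity of all the coefficients -/
def CC {R : Type} [Semiring R] [TopologicalSpace R] (Θ : Set ℝ) (p : ℝ → R[X]) : Prop :=
  ∀ k, ContinuousOn (fun θ => (p θ).coeff k) Θ

theorem CC.mul {R : Type} [Semiring R] [TopologicalSpace R] [IsTopologicalSemiring R]
    {Θ : Set ℝ} {p q : ℝ → R[X]} (hp : CC Θ p) (hq : CC Θ q) : CC Θ (fun θ => p θ * q θ) := by
  intro k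
  simp only [coeff_mul]
  exact continuousOn_finsetSum _ fun i _ => (hp i.1).mul (hq i.2)

theorem CC.pow {R : Type} [Semiring R] [TopologicalSpace R] [IsTopologicalSemiring R]
    {Θ : Set ℝ} {p : ℝ → R[X]} (hp : CC Θ p) (m : ℕ) : CC Θ (fun θ => p θ ^ m) := by
  induction m with
  | zero =>
    intro k
    simp only [pow_zero]
    exact continuousOn_const
  | succ m ih =>
    have h := ih.mul hp
    intro k
    simp only [pow_succ]
    exact h k

theorem CC.sub {R : Type} [Ring R] [TopologicalSpace R] [IsTopologicalRing R]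
    {Θ : Set ℝ} {p q : ℝ → R[X]} (hp : CC Θ p) (hq : CC Θ q) : CC Θ (fun θ => p θ - q θ) := by
  intro k
  simp only [coeff_sub]
  exact (hp k).sub (hq k)

theorem CC.scale {Θ : Set ℝ} {p : ℝ → ℂ[X]} (hp : CC Θ p) (r : ℂ) :
    CC Θ (fun θ => (p θ).comp (C r * X)) := by
  intro k
  simp only [comp_C_mul_X_coeff]
  exact (hp k).mul_const _

theorem CC.map {Θ : Set ℝ} {p : ℝ → ℝ[X]} (hp : CC Θ p) :
    CC Θ (fun θ => (p θ).map (algebraMap ℝ ℂ)) := by
  intro k
  simp only [coeff_map]
  exact Complex.continuous_ofReal.comp_continuousOn (hp k)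

theorem CC_phi (n : ℕ) (Θ : Set ℝ) : CC Θ (fun θ => phi n θ) := by
  unfold phi
  refine CC.pow ?_ _
  intro k
  simp only [coeff_add, coeff_C_mul]
  refine ContinuousOn.add (ContinuousOn.add continuousOn_const ?_) continuousOn_const
  refine ContinuousOn.mul ?_ continuousOn_const
  exact (continuous_const.mul Real.continuous_cos).continuousOn

theorem om_sq : om ^ 2 + om + 1 = 0 := by
  have h3 : (Real.sqrt 3) ^ 2 = 3 := Real.sq_sqrt (by norm_num)
  apply Complex.ext
  · simp only [om, pow_two, Complex.add_re, Complex.mul_re, Complex.one_re, Complex.zero_re]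
    linear_combination (-1 / 4) * h3
  · simp only [om, pow_two, Complex.add_im, Complex.mul_im, Complex.one_im, Complex.zero_im]
    ring

theorem om_cube : om ^ 3 = 1 := by linear_combination (om - 1) * om_sq

theorem phi_natDegree (n : ℕ) (θ : ℝ) : (phi n θ).natDegree = 4 * n ∧ (phi n θ).Monic := by
  have h1 : (1 + C (2 * Real.cos θ) * X + X ^ 2 : ℝ[X]).Monic := by monicity!
  have h2 : (1 + C (2 * Real.cos θ) * X + X ^ 2 : ℝ[X]).natDegree = 2 := by compute_degree!
  unfold phi
  refine ⟨?_, h1.pow _⟩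
  rw [h1.natDegree_pow, h2]
  ring

theorem phi_coeff_zero (n : ℕ) (θ : ℝ) : (phi n θ).coeff 0 = 1 := by
  rw [coeff_zero_eq_eval_zero]
  simp [phi]

/-- the two products -/
noncomputable def DDp (n : ℕ) (θ : ℝ) (t : ℝ[X]) : ℂ[X] :=
  (t.map (algebraMap ℝ ℂ)).comp (C om * X) * (t.map (algebraMap ℝ ℂ)).comp (C (om ^ 2) * X)
  - ((phi n θ).map (algebraMap ℝ ℂ)).comp (C om * X) *
    ((phi n θ).map (algebraMap ℝ ℂ)).comp (C (om ^ 2) * X)

theorem aeval_eq (p : ℝ[X]) (r x : ℂ) :
    aeval (r * x) p = ((p.map (algebraMap ℝ ℂ)).comp (C r * X)).eval x := by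
  rw [eval_comp, eval_mul, eval_C, eval_X, eval_map_algebraMap]

theorem DDp_eq {n : ℕ} {θ : ℝ} {t V : ℝ[X]}
    (h : ∀ x : ℂ, aeval (om * x) t * aeval (om ^ 2 * x) t =
      aeval (om * x) (phi n θ) * aeval (om ^ 2 * x) (phi n θ) + aeval x (phi n θ) * aeval x V) :
    DDp n θ t = (phi n θ).map (algebraMap ℝ ℂ) * V.map (algebraMap ℝ ℂ) := by
  apply Polynomial.funext
  intro x
  have h1 := h x
  rw [aeval_eq t om, aeval_eq t (om ^ 2), aeval_eq (phi n θ) om, aeval_eq (phi n θ) (om ^ 2)] at h1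
  unfold DDp
  rw [eval_sub, eval_mul, eval_mul, eval_mul, eval_map_algebraMap, eval_map_algebraMap]
  linear_combination h1

theorem scale_natDegree {p : ℂ[X]} {d : ℕ} (hp : p.natDegree ≤ d) (r : ℂ) :
    (p.comp (C r * X)).natDegree ≤ d := by
  rw [natDegree_le_iff_coeff_eq_zero]
  intro k hk
  rw [comp_C_mul_X_coeff, coeff_eq_zero_of_natDegree_lt (by omega), zero_mul]

theorem DDp_top {n : ℕ} {θ : ℝ} {t : ℝ[X]} (hR : Rel n θ t) :
    (DDp n θ t).natDegree ≤ 4 * n + 4 * n ∧ (DDp n θ t).coeff (4 * n + 4 * n) = 3 := by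
  have ht : (t.map (algebraMap ℝ ℂ)).natDegree ≤ 4 * n := natDegree_map_le.trans hR.deg
  have hf : ((phi n θ).map (algebraMap ℝ ℂ)).natDegree ≤ 4 * n :=
    natDegree_map_le.trans (phi_natDegree n θ).1.le
  have htop : t.coeff (4 * n) = -2 := by
    have := hR.pal 0 (by omega)
    rw [hR.zero, Nat.sub_zero] at this
    exact this.symm
  have hphi : (phi n θ).coeff (4 * n) = 1 := by
    have h := phi_natDegree n θ
    have h2 := h.2
    rw [Monic, leadingCoeff, h.1] at h2
    exact h2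
  have hom : om ^ (4 * n) * (om ^ 2) ^ (4 * n) = 1 := by
    rw [← mul_pow, show om * om ^ 2 = om ^ 3 by ring, om_cube, one_pow]
  unfold DDp
  constructor
  · refine (natDegree_sub_le _ _).trans (max_le ?_ ?_)
    · exact natDegree_mul_le.trans (add_le_add (scale_natDegree ht _) (scale_natDegree ht _))
    · exact natDegree_mul_le.trans (add_le_add (scale_natDegree hf _) (scale_natDegree hf _))
  · rw [coeff_sub, coeff_mul_add_eq_of_natDegree_le (scale_natDegree ht _) (scale_natDegree ht _),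
      coeff_mul_add_eq_of_natDegree_le (scale_natDegree hf _) (scale_natDegree hf _)]
    simp only [comp_C_mul_X_coeff, coeff_map, htop, hphi, map_neg, map_one, map_ofNat]
    linear_combination 3 * hom

theorem V_top {n : ℕ} {θ : ℝ} {t V : ℝ[X]} (hR : Rel n θ t)
    (h : ∀ x : ℂ, aeval (om * x) t * aeval (om ^ 2 * x) t =
      aeval (om * x) (phi n θ) * aeval (om ^ 2 * x) (phi n θ) + aeval x (phi n θ) * aeval x V) :
    V.natDegree = 4 * n ∧ V.leadingCoeff = 3 := by
  have hE := DDp_eq h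
  obtain ⟨h1, h2⟩ := DDp_top hR
  have hmon : ((phi n θ).map (algebraMap ℝ ℂ)).Monic := (phi_natDegree n θ).2.map _
  have hd : ((phi n θ).map (algebraMap ℝ ℂ)).natDegree = 4 * n := by
    rw [natDegree_map, (phi_natDegree n θ).1]
  have hDne : (DDp n θ t).natDegree = 4 * n + 4 * n := by
    refine le_antisymm h1 (le_natDegree_of_ne_zero ?_)
    rw [h2]
    norm_num
  have hV0 : V.map (algebraMap ℝ ℂ) ≠ 0 := by
    intro h0
    rw [hE, h0, mul_zero] at h2
    simp at h2
  have h3 : (DDp n θ t).natDegree = 4 * n + (V.map (algebraMap ℝ ℂ)).natDegree := by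
    rw [hE, hmon.natDegree_mul' hV0, hd]
  have h4 : (V.map (algebraMap ℝ ℂ)).natDegree = 4 * n := by omega
  have h5 : (DDp n θ t).leadingCoeff = (V.map (algebraMap ℝ ℂ)).leadingCoeff := by
    rw [hE, leadingCoeff_mul, hmon.leadingCoeff, one_mul]
  rw [leadingCoeff, hDne, h2, leadingCoeff_map] at h5
  refine ⟨by rw [natDegree_map] at h4; exact h4, ?_⟩
  have h6 : ((V.leadingCoeff : ℝ) : ℂ) = ((3 : ℝ) : ℂ) := by
    rw [Complex.ofReal_ofNat]
    exact h5.symm
  exact Complex.ofReal_injective h6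

end VCONT

open VCONT in
theorem cl_vcont : S_vcont := by
  intro n Θ t hn hR ht
  classical
  have hex : ∀ θ : ℝ, ∃ V : ℝ[X], θ ∈ Θ → ∀ x : ℂ,
      aeval (om * x) (t θ) * aeval (om ^ 2 * x) (t θ) =
      aeval (om * x) (phi n θ) * aeval (om ^ 2 * x) (phi n θ) +
        aeval x (phi n θ) * aeval x V := by
    intro θ
    by_cases h : θ ∈ Θ
    · obtain ⟨V, hV⟩ := (hR θ h).two
      exact ⟨V, fun _ => hV⟩
    · exact ⟨0, fun h' => absurd h' h⟩
  choose V hV using hex
  have hVt : ∀ θ ∈ Θ, (V θ).natDegree = 4 * n ∧ (V θ).leadingCoeff = 3 :=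
    fun θ hθ => V_top (hR θ hθ) (hV θ hθ)
  have hDc : CC Θ (fun θ => DDp n θ (t θ)) := by
    unfold DDp
    have h1 : CC Θ (fun θ => (t θ).map (algebraMap ℝ ℂ)) := CC.map ht
    have h2 : CC Θ (fun θ => (phi n θ).map (algebraMap ℝ ℂ)) := CC.map (CC_phi n Θ)
    exact ((h1.scale om).mul (h1.scale (om ^ 2))).sub ((h2.scale om).mul (h2.scale (om ^ 2)))
  have hPc : CC Θ (fun θ => (phi n θ).map (algebraMap ℝ ℂ)) := CC.map (CC_phi n Θ)
  have hVc : CC Θ (fun θ => (V θ).map (algebraMap ℝ ℂ)) := by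
    intro k
    induction k using Nat.strong_induction_on with
    | _ k ih =>
      have h1 : ContinuousOn (fun θ => (DDp n θ (t θ)).coeff k -
          ∑ i ∈ Finset.range k, ((phi n θ).map (algebraMap ℝ ℂ)).coeff (i + 1) *
            ((V θ).map (algebraMap ℝ ℂ)).coeff (k - (i + 1))) Θ := by
        refine (hDc k).sub (continuousOn_finsetSum _ fun i hi => ?_)
        rw [Finset.mem_range] at hi
        exact (hPc (i + 1)).mul (ih _ (by omega))
      refine h1.congr fun θ hθ => ?_
      have h2 : (DDp n θ (t θ)).coeff k =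
          ((phi n θ).map (algebraMap ℝ ℂ) * (V θ).map (algebraMap ℝ ℂ)).coeff k := by
        rw [DDp_eq (hV θ hθ)]
      rw [coeff_mul, Finset.Nat.sum_antidiagonal_eq_sum_range_succ
        (fun a b => ((phi n θ).map (algebraMap ℝ ℂ)).coeff a *
          ((V θ).map (algebraMap ℝ ℂ)).coeff b) k, Finset.sum_range_succ'] at h2
      have h3 : ((phi n θ).map (algebraMap ℝ ℂ)).coeff 0 = 1 := by
        rw [coeff_map, phi_coeff_zero, map_one]
      rw [h3, one_mul, Nat.sub_zero] at h2
      simp only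
      rw [h2]
      ring
  have hVr : ∀ k, ContinuousOn (fun θ => (V θ).coeff k) Θ := by
    intro k
    have h1 := Complex.continuous_re.comp_continuousOn (hVc k)
    refine h1.congr fun θ _ => ?_
    simp [coeff_map]
  refine ⟨fun θ => C (1 / 3) * V θ, ?_, ?_, ?_⟩
  · intro θ hθ
    obtain ⟨h1, h2⟩ := hVt θ hθ
    refine ⟨?_, ?_⟩
    · rw [Monic, leadingCoeff_mul, leadingCoeff_C, h2]
      norm_num
    · rw [natDegree_C_mul (by norm_num), h1]
  · intro k
    simp only [coeff_C_mul]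
    exact continuousOn_const.mul (hVr k)
  · intro θ hθ x
    rw [hV θ hθ x]
    congr 1
    simp only [map_mul, aeval_C]
    have : (algebraMap ℝ ℂ) (1 / 3) = 1 / 3 := by
      simp
    rw [this]
    ring

end W96CL
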